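import Pool.Agent.H410.Core

set_option autoImplicit false

namespace Pool.Agent.Results.MP_9673d9_co.CoplanarLogBound

open Pool.Agent.H410.Sector

/-- If at most `N` points of a finite set `S` of at least two points of three-space lie on a common
plane, then some plane through two distinct points of `S` has imbalance at most
`4 * ⌊log₂ N⌋ + 4`. -/
theorem result (S : Finset (Fin 3 → ℝ)) (hS : 2 ≤ S.card) (N : ℕ)
    (hN : ∀ v : Fin 3 → ℝ, v ≠ 0 → ∀ c : ℝ, (S.filter (fun x => ∑ i, v i * x i = c)).card ≤ N) :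
    ∃ p ∈ S, ∃ q ∈ S, p ≠ q ∧
      ∃ v : Fin 3 → ℝ, v ≠ 0 ∧ ∃ c : ℝ,
        (∑ i, v i * p i = c) ∧ (∑ i, v i * q i = c) ∧
        |((S.filter (fun x => ∑ i, v i * x i < c)).card : ℤ)
          - ((S.filter (fun x => c < ∑ i, v i * x i)).card : ℤ)| ≤ 4 * (Nat.log 2 N : ℤ) + 4 := by
  classical
  have hip : ∀ v x : Fin 3 → ℝ, ∑ i, v i * x i = ip v x := by
    intro v x
    simp only [Fin.sum_univ_three, ip]
  by_contra hcon
  push Not at hcon
  have hG : GapS S (4 * Nat.log 2 N + 4) := by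
    intro v hv p hp q hq hpq h
    have h1 := hcon p hp q hq hpq v hv (ip v p) (hip v p) (by rw [hip]; exact h.symm)
    simp only [hip] at h1
    unfold up dn
    rcases lt_abs.mp h1 with h2 | h2
    · left; omega
    · right; omega
  obtain ⟨v, hv, c, h⟩ := core S (4 * Nat.log 2 N + 4) (by omega) hS hG
  have hk := hN v hv c
  simp only [hip] at hk
  generalize (S.filter (fun z => ip v z = c)).card = k at h hk
  have h2 : (4 * Nat.log 2 N + 4) / 2 = 2 * (Nat.log 2 N + 1) := by omega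
  rw [h2, pow_mul'] at h
  have h3 : N < 2 ^ (Nat.log 2 N + 1) := Nat.lt_pow_succ_log_self (by norm_num) N
  have h4 : (2:ℕ) ^ (Nat.log 2 N + 1) ≥ 2 := by
    calc (2:ℕ) ^ (Nat.log 2 N + 1) ≥ 2 ^ 1 := Nat.pow_le_pow_right (by norm_num) (by omega)
    _ = 2 := by norm_num
  have h5 : k * k - k + 1 < (2 ^ (Nat.log 2 N + 1)) ^ 2 := by
    set P := 2 ^ (Nat.log 2 N + 1) with hP
    have h6 : k + 1 ≤ P := by omega
    have h7 : k * k ≤ P * P - 2 * P + 1 := by
      obtain ⟨r, hr⟩ := Nat.exists_eq_add_of_le h6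
      have : P * P = (k + 1 + r) * (k + 1 + r) := by rw [hr]
      have h8 : k * k + 2 * P ≤ P * P + 1 := by
        rw [this, hr]; nlinarith
      omega
    have h9 : P ^ 2 = P * P := sq P
    have h10 : 2 * P ≤ P * P := Nat.mul_le_mul_right P h4
    rw [h9]
    omega
  omega

end Pool.Agent.Results.MP_9673d9_co.CoplanarLogBound
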