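import Mathlib

set_option autoImplicit false

namespace Pool.Agent.Results.MP_9673d9_co.NoBalancedPlane13

/-- The thirteen points, in integer coordinates. -/
def P : Fin 13 → Fin 3 → ℤ :=
  ![![-260, 520, 0], ![520, 0, -260], ![0, -260, 520],
    ![260, 260, -520], ![260, -520, 260], ![-520, 260, 260],
    ![65, 65, -65], ![65, -65, 65], ![-65, 65, 65],
    ![40, 20, 20], ![20, 20, 40], ![20, 40, 20], ![26, 26, 26]]

/-- cross product of `P j - P i` and `P m - P i` -/
def N (i j m : Fin 13) : Fin 3 → ℤ :=
  ![(P j 1 - P i 1) * (P m 2 - P i 2) - (P j 2 - P i 2) * (P m 1 - P i 1),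
    (P j 2 - P i 2) * (P m 0 - P i 0) - (P j 0 - P i 0) * (P m 2 - P i 2),
    (P j 0 - P i 0) * (P m 1 - P i 1) - (P j 1 - P i 1) * (P m 0 - P i 0)]

/-- value of the plane equation at `P l` -/
def val (i j m l : Fin 13) : ℤ :=
  N i j m 0 * (P l 0 - P i 0) + N i j m 1 * (P l 1 - P i 1) + N i j m 2 * (P l 2 - P i 2)

def isZ (i j m : Fin 13) : Bool := N i j m 0 == 0 && N i j m 1 == 0 && N i j m 2 == 0

def lineCard (i j : Fin 13) : ℕ := (List.finRange 13).countP (fun m => isZ i j m)

def posCard (i j m : Fin 13) : ℕ := (List.finRange 13).countP (fun l => decide (0 < val i j m l))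
def negCard (i j m : Fin 13) : ℕ := (List.finRange 13).countP (fun l => decide (val i j m l < 0))

def check1 : Bool :=
  (List.finRange 13).all fun i => (List.finRange 13).all fun j =>
    (i == j) || (lineCard i j % 2 == 0)

def check2 : Bool :=
  (List.finRange 13).all fun i => (List.finRange 13).all fun j => (List.finRange 13).all fun m =>
    isZ i j m || !(posCard i j m == negCard i j m)

def check3 : Bool :=
  (List.finRange 13).all fun i => (List.finRange 13).all fun j =>
    (i == j) || !(P i 0 == P j 0 && P i 1 == P j 1 && P i 2 == P j 2)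

theorem check1_true : check1 = true := by decide +kernel

theorem check2_true : check2 = true := by decide +kernel

theorem check3_true : check3 = true := by decide +kernel

/-- the real points -/
def Q (i : Fin 13) : Fin 3 → ℝ := fun k => (P i k : ℝ)

theorem line_even (i j : Fin 13) (h : i ≠ j) : lineCard i j % 2 = 0 := by
  have h1 := check1_true
  simp only [check1, List.all_eq_true] at h1
  have h2 := h1 i (List.mem_finRange i) j (List.mem_finRange j)
  simpa [h] using h2

theorem pos_ne_neg (i j m : Fin 13) (h : isZ i j m = false) : posCard i j m ≠ negCard i j m := by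
  have h1 := check2_true
  simp only [check2, List.all_eq_true] at h1
  have h2 := h1 i (List.mem_finRange i) j (List.mem_finRange j) m (List.mem_finRange m)
  simpa [h] using h2

theorem P_inj (i j : Fin 13) (h : i ≠ j) : ∃ k, P i k ≠ P j k := by
  have h1 := check3_true
  simp only [check3, List.all_eq_true] at h1
  have h2 := h1 i (List.mem_finRange i) j (List.mem_finRange j)
  by_contra hc
  push Not at hc
  simp [h, hc] at h2

theorem Q_inj : Function.Injective Q := by
  intro i j hij
  by_contra h
  obtain ⟨k, hk⟩ := P_inj i j h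
  apply hk
  have := congrFun hij k
  simp only [Q] at this
  exact_mod_cast this

/-- the point set -/
noncomputable def S : Finset (Fin 3 → ℝ) := Finset.univ.map ⟨Q, Q_inj⟩

theorem countP_eq (p : Fin 13 → Bool) :
    (List.finRange 13).countP p = (Finset.univ.filter (fun l => p l = true)).card := by
  rw [List.countP_eq_length_filter, ← List.toFinset_card_of_nodup
    ((List.nodup_finRange 13).filter _)]
  congr 1
  ext l
  simp [List.mem_filter]

theorem card_filter_S (p : (Fin 3 → ℝ) → Prop) [DecidablePred p] :
    (S.filter p).card = (Finset.univ.filter (fun i => p (Q i))).card := by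
  rw [S, Finset.filter_map, Finset.card_map]
  rfl

theorem key (i j : Fin 13) (hij : i ≠ j) (v : Fin 3 → ℝ) (hv : v ≠ 0) (c : ℝ)
    (hi : ∑ k, v k * Q i k = c) (hj : ∑ k, v k * Q j k = c) :
    (Finset.univ.filter (fun l => ∑ k, v k * Q l k < c)).card ≠
      (Finset.univ.filter (fun l => c < ∑ k, v k * Q l k)).card := by
  classical
  intro hbal
  simp only [Fin.sum_univ_three] at hi hj hbal
  -- the zero set
  set Z : Finset (Fin 13) := Finset.univ.filter (fun l => v 0 * Q l 0 + v 1 * Q l 1 + v 2 * Q l 2 = c)
    with hZ
  set L : Finset (Fin 13) := Finset.univ.filter (fun l => isZ i j l = true) with hL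
  have hcardZ : Z.card % 2 = 1 := by
    have h1 : (Finset.univ.filter (fun l => v 0 * Q l 0 + v 1 * Q l 1 + v 2 * Q l 2 < c)).card
        + (Finset.univ.filter (fun l => c < v 0 * Q l 0 + v 1 * Q l 1 + v 2 * Q l 2)).card
        + Z.card = 13 := by
      have e : (Finset.univ : Finset (Fin 13)) =
          (Finset.univ.filter (fun l => v 0 * Q l 0 + v 1 * Q l 1 + v 2 * Q l 2 < c)) ∪
          (Finset.univ.filter (fun l => c < v 0 * Q l 0 + v 1 * Q l 1 + v 2 * Q l 2)) ∪ Z := by
        ext l
        simp only [hZ, Finset.mem_univ, Finset.mem_union, Finset.mem_filter, true_and, true_iff]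
        rcases lt_trichotomy (v 0 * Q l 0 + v 1 * Q l 1 + v 2 * Q l 2) c with h | h | h
        · exact Or.inl (Or.inl h)
        · exact Or.inr h
        · exact Or.inl (Or.inr h)
      have c13 : (Finset.univ : Finset (Fin 13)).card = 13 := by simp
      have e' := congrArg Finset.card e
      rw [c13] at e'
      rw [Finset.card_union_of_disjoint, Finset.card_union_of_disjoint] at e'
      · exact e'.symm
      · rw [Finset.disjoint_filter]; intro l _ h1 h2; linarith
      · rw [Finset.disjoint_union_left]
        constructor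
        · rw [hZ, Finset.disjoint_filter]; intro l _ h1 h2; linarith
        · rw [hZ, Finset.disjoint_filter]; intro l _ h1 h2; linarith
    omega
  have hcardL : L.card % 2 = 0 := by
    have := line_even i j hij
    rw [lineCard, countP_eq] at this
    exact this
  -- orthogonality
  have orth : ∀ l, l ∈ Z → v 0 * (P l 0 - P i 0 : ℝ) + v 1 * (P l 1 - P i 1) + v 2 * (P l 2 - P i 2) = 0 := by
    intro l hl
    simp only [hZ, Finset.mem_filter, Finset.mem_univ, true_and] at hl
    simp only [Q] at hl hi
    linarith
  have hu : v 0 * (P j 0 - P i 0 : ℝ) + v 1 * (P j 1 - P i 1) + v 2 * (P j 2 - P i 2) = 0 := by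
    simp only [Q] at hj hi
    linarith
  have hLZ : L ⊆ Z := by
    intro m hm
    simp only [hL, Finset.mem_filter, Finset.mem_univ, true_and, isZ, Bool.and_eq_true, beq_iff_eq,
      N, Matrix.cons_val_zero, Matrix.cons_val_one, Matrix.cons_val] at hm
    obtain ⟨⟨h0, h1⟩, h2⟩ := hm
    have r0 : ((P j 1 - P i 1) * (P m 2 - P i 2) - (P j 2 - P i 2) * (P m 1 - P i 1) : ℝ) = 0 := by
      exact_mod_cast h0
    have r1 : ((P j 2 - P i 2) * (P m 0 - P i 0) - (P j 0 - P i 0) * (P m 2 - P i 2) : ℝ) = 0 := by
      exact_mod_cast h1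
    have r2 : ((P j 0 - P i 0) * (P m 1 - P i 1) - (P j 1 - P i 1) * (P m 0 - P i 0) : ℝ) = 0 := by
      exact_mod_cast h2
    obtain ⟨k, hk⟩ := P_inj i j hij
    have hkR : (P j k - P i k : ℝ) ≠ 0 := by
      intro h
      apply hk
      have : (P j k : ℝ) = P i k := by linarith
      exact_mod_cast this.symm
    have hw : v 0 * (P m 0 - P i 0 : ℝ) + v 1 * (P m 1 - P i 1) + v 2 * (P m 2 - P i 2) = 0 := by
      have hmul : (P j k - P i k : ℝ) * (v 0 * (P m 0 - P i 0 : ℝ) + v 1 * (P m 1 - P i 1) + v 2 * (P m 2 - P i 2)) = 0 := by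
        fin_cases k
        · simp only [Fin.zero_eta] at *
          linear_combination (P m 0 - P i 0 : ℝ) * hu + v 1 * r2 - v 2 * r1
        · simp only [Fin.mk_one] at *
          linear_combination (P m 1 - P i 1 : ℝ) * hu - v 0 * r2 + v 2 * r0
        · simp only [Fin.reduceFinMk] at *
          linear_combination (P m 2 - P i 2 : ℝ) * hu + v 0 * r1 - v 1 * r0
      rcases mul_eq_zero.mp hmul with h | h
      · exact absurd h hkR
      · exact h
    rw [hZ, Finset.mem_filter]
    refine ⟨Finset.mem_univ _, ?_⟩
    simp only [Q] at hi ⊢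
    linarith
  have hne : L ≠ Z := by
    intro h
    rw [h] at hcardL
    omega
  obtain ⟨m, hmZ, hmL⟩ : ∃ m ∈ Z, m ∉ L := by
    by_contra hc
    push Not at hc
    exact hne (Finset.Subset.antisymm hLZ hc)
  have hmf : isZ i j m = false := by
    simp only [hL, Finset.mem_filter, Finset.mem_univ, true_and] at hmL
    simpa using hmL
  have hw := orth m hmZ
  -- v is parallel to N
  have n0 : ((N i j m 0 : ℤ) : ℝ) = (P j 1 - P i 1) * (P m 2 - P i 2) - (P j 2 - P i 2) * (P m 1 - P i 1) := by
    simp [N]
  have n1 : ((N i j m 1 : ℤ) : ℝ) = (P j 2 - P i 2) * (P m 0 - P i 0) - (P j 0 - P i 0) * (P m 2 - P i 2) := by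
    simp [N]
  have n2 : ((N i j m 2 : ℤ) : ℝ) = (P j 0 - P i 0) * (P m 1 - P i 1) - (P j 1 - P i 1) * (P m 0 - P i 0) := by
    simp [N]
  have c01 : v 0 * (N i j m 1 : ℝ) = v 1 * (N i j m 0 : ℝ) := by
    rw [n0, n1]
    linear_combination (P j 2 - P i 2 : ℝ) * hw - (P m 2 - P i 2 : ℝ) * hu
  have c12 : v 1 * (N i j m 2 : ℝ) = v 2 * (N i j m 1 : ℝ) := by
    rw [n1, n2]
    linear_combination (P j 0 - P i 0 : ℝ) * hw - (P m 0 - P i 0 : ℝ) * hu
  have c20 : v 2 * (N i j m 0 : ℝ) = v 0 * (N i j m 2 : ℝ) := by
    rw [n0, n2]
    linear_combination (P j 1 - P i 1 : ℝ) * hw - (P m 1 - P i 1 : ℝ) * hu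
  obtain ⟨t, ht0, ht1, ht2⟩ : ∃ t : ℝ, v 0 = t * N i j m 0 ∧ v 1 = t * N i j m 1 ∧ v 2 = t * N i j m 2 := by
    have hN : N i j m 0 ≠ 0 ∨ N i j m 1 ≠ 0 ∨ N i j m 2 ≠ 0 := by
      by_contra hc
      push Not at hc
      simp [isZ, hc] at hmf
    rcases hN with h | h | h
    · have hR : (N i j m 0 : ℝ) ≠ 0 := by exact_mod_cast h
      refine ⟨v 0 / N i j m 0, ?_, ?_, ?_⟩
      · field_simp
      · field_simp; linarith
      · field_simp; linarith
    · have hR : (N i j m 1 : ℝ) ≠ 0 := by exact_mod_cast h
      refine ⟨v 1 / N i j m 1, ?_, ?_, ?_⟩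
      · field_simp; linarith
      · field_simp
      · field_simp; linarith
    · have hR : (N i j m 2 : ℝ) ≠ 0 := by exact_mod_cast h
      refine ⟨v 2 / N i j m 2, ?_, ?_, ?_⟩
      · field_simp; linarith
      · field_simp; linarith
      · field_simp
  have ht : t ≠ 0 := by
    intro h
    apply hv
    funext k
    fin_cases k
    · simp [ht0, h]
    · simp [ht1, h]
    · simp [ht2, h]
  have hval : ∀ l, v 0 * Q l 0 + v 1 * Q l 1 + v 2 * Q l 2 - c = t * (val i j m l : ℝ) := by
    intro l
    have : ((val i j m l : ℤ) : ℝ) = N i j m 0 * (P l 0 - P i 0) + N i j m 1 * (P l 1 - P i 1)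
        + N i j m 2 * (P l 2 - P i 2) := by
      simp [val]
    rw [this, ← hi, ht0, ht1, ht2]
    simp only [Q]
    ring
  have hpn := pos_ne_neg i j m hmf
  rw [posCard, negCard, countP_eq, countP_eq] at hpn
  simp only [decide_eq_true_eq] at hpn
  rcases lt_or_gt_of_ne ht with hneg | hpos
  · have e1 : (Finset.univ.filter (fun l => v 0 * Q l 0 + v 1 * Q l 1 + v 2 * Q l 2 < c)) =
        Finset.univ.filter (fun l => 0 < val i j m l) := by
      ext l
      simp only [Finset.mem_filter, Finset.mem_univ, true_and]
      have := hval l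
      constructor
      · intro h
        have h2 : t * (val i j m l : ℝ) < 0 := by linarith
        have h3 : 0 < (val i j m l : ℝ) := by
          by_contra hc
          push Not at hc
          have := mul_nonneg_of_nonpos_of_nonpos hneg.le hc
          linarith
        exact_mod_cast h3
      · intro h
        have h3 : 0 < (val i j m l : ℝ) := by exact_mod_cast h
        have := mul_neg_of_neg_of_pos hneg h3
        linarith
    have e2 : (Finset.univ.filter (fun l => c < v 0 * Q l 0 + v 1 * Q l 1 + v 2 * Q l 2)) =
        Finset.univ.filter (fun l => val i j m l < 0) := by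
      ext l
      simp only [Finset.mem_filter, Finset.mem_univ, true_and]
      have := hval l
      constructor
      · intro h
        have h2 : 0 < t * (val i j m l : ℝ) := by linarith
        have h3 : (val i j m l : ℝ) < 0 := by
          by_contra hc
          push Not at hc
          have := mul_nonpos_of_nonpos_of_nonneg hneg.le hc
          linarith
        exact_mod_cast h3
      · intro h
        have h3 : (val i j m l : ℝ) < 0 := by exact_mod_cast h
        have := mul_pos_of_neg_of_neg hneg h3
        linarith
    rw [e1, e2] at hbal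
    exact hpn hbal
  · have e1 : (Finset.univ.filter (fun l => v 0 * Q l 0 + v 1 * Q l 1 + v 2 * Q l 2 < c)) =
        Finset.univ.filter (fun l => val i j m l < 0) := by
      ext l
      simp only [Finset.mem_filter, Finset.mem_univ, true_and]
      have := hval l
      constructor
      · intro h
        have h2 : t * (val i j m l : ℝ) < 0 := by linarith
        have h3 : (val i j m l : ℝ) < 0 := by
          by_contra hc
          push Not at hc
          have := mul_nonneg hpos.le hc
          linarith
        exact_mod_cast h3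
      · intro h
        have h3 : (val i j m l : ℝ) < 0 := by exact_mod_cast h
        have := mul_neg_of_pos_of_neg hpos h3
        linarith
    have e2 : (Finset.univ.filter (fun l => c < v 0 * Q l 0 + v 1 * Q l 1 + v 2 * Q l 2)) =
        Finset.univ.filter (fun l => 0 < val i j m l) := by
      ext l
      simp only [Finset.mem_filter, Finset.mem_univ, true_and]
      have := hval l
      constructor
      · intro h
        have h2 : 0 < t * (val i j m l : ℝ) := by linarith
        have h3 : 0 < (val i j m l : ℝ) := by
          by_contra hc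
          push Not at hc
          have := mul_nonpos_of_nonneg_of_nonpos hpos.le hc
          linarith
        exact_mod_cast h3
      · intro h
        have h3 : 0 < (val i j m l : ℝ) := by exact_mod_cast h
        have := mul_pos hpos h3
        linarith
    rw [e1, e2] at hbal
    exact hpn hbal.symm

/-- There is a set of thirteen points of three-space such that no plane through two of them is
balanced: every plane through at least two points of the set has unequal numbers of points of the
set strictly on its two sides. -/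
theorem result :
    ∃ S : Finset (Fin 3 → ℝ), S.card = 13 ∧
      ∀ p ∈ S, ∀ q ∈ S, p ≠ q →
        ∀ v : Fin 3 → ℝ, v ≠ 0 → ∀ c : ℝ,
          (∑ i, v i * p i = c) → (∑ i, v i * q i = c) →
          (S.filter (fun x => ∑ i, v i * x i < c)).card
            ≠ (S.filter (fun x => c < ∑ i, v i * x i)).card := by
  classical
  refine ⟨S, ?_, ?_⟩
  · simp [S]
  · intro p hp q hq hpq v hv c hpc hqc
    simp only [S, Finset.mem_map, Finset.mem_univ, true_and, Function.Embedding.coeFn_mk] at hp hq
    obtain ⟨i, rfl⟩ := hp
    obtain ⟨j, rfl⟩ := hq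
    have hij : i ≠ j := fun h => hpq (by rw [h])
    rw [card_filter_S, card_filter_S]
    exact key i j hij v hv c hpc hqc

end Pool.Agent.Results.MP_9673d9_co.NoBalancedPlane13
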