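import Pool.Agent.H410.Core

set_option autoImplicit false

namespace Pool.Agent.Results.MP_9673d9_co.ThreeRichLines

open Finset Pool.Agent.H410.Sector

open Classical in
/-- the points of `S` on the open ray from `p` in direction `d` -/
noncomputable def ray (S : Finset (Fin 3 → ℝ)) (p d : Fin 3 → ℝ) : Finset (Fin 3 → ℝ) :=
  S.filter (fun x => ∃ s : ℝ, 0 < s ∧ x = p + s • d)

/-- the line through `p` with direction `d` is heavy at `p`: the numbers of points of `S` on its two
open rays from `p` differ by at least `m` -/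
def Heavy (S : Finset (Fin 3 → ℝ)) (m : ℕ) (p d : Fin 3 → ℝ) : Prop :=
  (m : ℤ) ≤ |((ray S p d).card : ℤ) - ((ray S p (-d)).card : ℤ)|

lemma exists_orth (d : Fin 3 → ℝ) : ∃ v : Fin 3 → ℝ, v ≠ 0 ∧ ip v d = 0 := by
  by_cases h : d 0 = 0 ∧ d 1 = 0
  · refine ⟨![1, 0, 0], ?_, ?_⟩
    · intro h1
      have := congrFun h1 0
      simp at this
    · simp [ip, h.1]
  · refine ⟨![d 1, -d 0, 0], ?_, ?_⟩
    · intro h1
      apply h
      have h2 := congrFun h1 0
      have h3 := congrFun h1 1
      simp at h2 h3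
      exact ⟨h3, h2⟩
    · simp only [ip, Matrix.cons_val_zero, Matrix.cons_val_one, Matrix.cons_val]
      ring

/-- either three independent heavy directions, or a common orthogonal vector -/
lemma three_or_orth (S : Finset (Fin 3 → ℝ)) (m : ℕ) (p : Fin 3 → ℝ) :
    (∃ x ∈ S, ∃ y ∈ S, ∃ z ∈ S, LinearIndependent ℝ ![x - p, y - p, z - p] ∧
      Heavy S m p (x - p) ∧ Heavy S m p (y - p) ∧ Heavy S m p (z - p)) ∨
    (∃ v : Fin 3 → ℝ, v ≠ 0 ∧ ∀ x ∈ S, Heavy S m p (x - p) → ip v (x - p) = 0) := by
  by_contra hcon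
  push Not at hcon
  obtain ⟨h3, hv⟩ := hcon
  obtain ⟨v0, hv0, -⟩ := exists_orth 0
  obtain ⟨x, hx, hxh, hx0⟩ := hv v0 hv0
  obtain ⟨v1, hv1, hv1x⟩ := exists_orth (x - p)
  obtain ⟨y, hy, hyh, hy0⟩ := hv v1 hv1
  set a := x - p with ha
  set b := y - p with hb
  have hane : a ≠ 0 := by
    intro h
    apply hx0
    rw [h]
    simp [ip]
  have hcr : crs a b ≠ 0 := by
    intro h
    have h0 := congrFun h 0
    have h1 := congrFun h 1
    have h2 := congrFun h 2
    simp only [crs, Matrix.cons_val_zero, Matrix.cons_val_one, Matrix.cons_val, Pi.zero_apply] at h0 h1 h2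
    apply hy0
    -- b is a multiple of a
    have key : ∀ k : Fin 3, a k * ip v1 b = b k * ip v1 a := by
      intro k
      fin_cases k
      · simp only [ip, Fin.zero_eta]
        linear_combination (v1 1) * h2 - (v1 2) * h1
      · simp only [ip, Fin.mk_one]
        linear_combination -(v1 0) * h2 + (v1 2) * h0
      · simp only [ip, Fin.reduceFinMk]
        linear_combination (v1 0) * h1 - (v1 1) * h0
    obtain ⟨k, hk⟩ : ∃ k, a k ≠ 0 := by
      by_contra hc
      push Not at hc
      exact hane (funext hc)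
    have h4 := key k
    rw [hv1x, mul_zero] at h4
    rcases mul_eq_zero.mp h4 with h5 | h5
    · exact absurd h5 hk
    · exact h5
  obtain ⟨z, hz, hzh, hz0⟩ := hv (crs a b) hcr
  refine h3 x hx y hy z hz ?_ hxh hyh hzh
  have hdet : Matrix.det (Matrix.of ![x - p, y - p, z - p]) ≠ 0 := by
    intro h
    apply hz0
    rw [Matrix.det_fin_three] at h
    simp only [Matrix.of_apply, Matrix.cons_val_zero, Matrix.cons_val_one, Matrix.cons_val] at h
    simp only [ip, crs, Matrix.cons_val_zero, Matrix.cons_val_one, Matrix.cons_val, ha, hb]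
    linarith
  exact Matrix.linearIndependent_rows_of_det_ne_zero hdet

lemma mem_ray {S : Finset (Fin 3 → ℝ)} {p d x : Fin 3 → ℝ} :
    x ∈ ray S p d ↔ x ∈ S ∧ ∃ s : ℝ, 0 < s ∧ x = p + s • d := by
  classical
  unfold ray
  simp only [mem_filter]

theorem main (S : Finset (Fin 3 → ℝ)) (hS : 2 ≤ S.card) (C : ℕ) (hG : GapS S C)
    (w0 : Fin 3 → ℝ) (hw0 : ∀ x ∈ S, ∀ y ∈ S, ip w0 x = ip w0 y → x = y) (p : Fin 3 → ℝ) (hp : p ∈ S)
    (hm1 : up S (ip w0) (ip w0 p) ≤ dn S (ip w0) (ip w0 p) + 1)
    (hm2 : dn S (ip w0) (ip w0 p) ≤ up S (ip w0) (ip w0 p) + 1) :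
    ∃ x ∈ S, ∃ y ∈ S, ∃ z ∈ S, LinearIndependent ℝ ![x - p, y - p, z - p] ∧
      Heavy S (C + S.card % 2) p (x - p) ∧ Heavy S (C + S.card % 2) p (y - p) ∧
      Heavy S (C + S.card % 2) p (z - p) := by
  classical
  by_contra hcon
  obtain ⟨u, hune, huh⟩ : ∃ v : Fin 3 → ℝ, v ≠ 0 ∧
      (∀ x ∈ S, Heavy S (C + S.card % 2) p (x - p) → ip v (x - p) = 0) := by
    rcases three_or_orth S (C + S.card % 2) p with h | h
    · exact absurd h hcon
    · exact h
  obtain ⟨zz, hzzne, hzz⟩ := exists_orth u
  -- generic direction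
  set F := (insert zz (((S ×ˢ S).image (fun q => ip u (q.2 - p) • (q.1 - p)
        - ip u (q.1 - p) • (q.2 - p))).filter (fun u => u ≠ 0))) with hF
  obtain ⟨g0, -, hg0⟩ := exists_generic F (by
    intro f hf
    rcases mem_insert.mp hf with h | h
    · rw [h]; exact hzzne
    · exact (mem_filter.mp h).2)
  obtain ⟨ε0, hε0, hsm⟩ := exists_small S.offDiag (fun q => ip g0 (q.1 - q.2))
    (fun q => ip w0 (q.1 - q.2)) (by
    intro q hq h
    obtain ⟨h1, h2, h3⟩ := mem_offDiag.mp hq
    apply h3
    apply hw0 _ h1 _ h2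
    rw [ip_sub_right] at h; linarith)
  obtain ⟨ε, hεI, hεF⟩ := (Set.Ioo_infinite hε0).exists_notMem_finset
    (F.image (fun f => -ip w0 f / ip g0 f))
  obtain ⟨hε1, hε2⟩ := hεI
  set w := w0 + ε • g0 with hwdef
  have hw : ∀ f ∈ F, ip w f ≠ 0 := by
    intro f hf h
    apply hεF
    rw [mem_image]
    refine ⟨f, hf, ?_⟩
    rw [hwdef, ip_add, ip_smul] at h
    have := hg0 f hf
    rw [div_eq_iff this]; linarith
  have hwsgn : ∀ x ∈ S, ∀ y ∈ S, (ip w x < ip w y ↔ ip w0 x < ip w0 y) := by
    intro x hx y hy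
    by_cases hxy : x = y
    · subst hxy; simp
    have h1 : ε0 * |ip g0 (x - y)| < |ip w0 (x - y)| := hsm (x, y) (mem_offDiag.mpr ⟨hx, hy, hxy⟩)
    have h2 : |ε * ip g0 (x - y)| < |ip w0 (x - y)| := by
      rw [abs_mul, abs_of_pos hε1]
      have := mul_le_mul_of_nonneg_right hε2.le (abs_nonneg (ip g0 (x - y)))
      linarith
    have h3 : ip w x - ip w y = ip w0 (x - y) + ε * ip g0 (x - y) := by
      rw [hwdef]; simp only [ip_add, ip_smul, ip_sub_right]; ring
    have h4 : ip w0 (x - y) = ip w0 x - ip w0 y := ip_sub_right _ _ _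
    have h5 := abs_lt.mp h2
    rcases lt_trichotomy (ip w0 (x - y)) 0 with h6 | h6 | h6
    · rw [abs_of_neg h6] at h5
      constructor <;> intro h7 <;> linarith
    · rw [h6, abs_zero] at h2
      linarith [abs_nonneg (ε * ip g0 (x - y))]
    · rw [abs_of_pos h6] at h5
      constructor <;> intro h7 <;> linarith
  have hwinj : ∀ x ∈ S, ∀ y ∈ S, ip w x = ip w y → x = y := by
    intro x hx y hy h
    apply hw0 x hx y hy
    have h1 := hwsgn x hx y hy
    have h2 := hwsgn y hy x hx
    rw [h] at h1 h2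
    simp only [lt_irrefl, false_iff, not_lt] at h1 h2
    exact le_antisymm h2 h1
  have hupe : up S (ip w) (ip w p) = up S (ip w0) (ip w0 p) := by
    unfold up
    rw [Finset.filter_congr (fun y hy => hwsgn p hp y hy)]
  have hdne : dn S (ip w) (ip w p) = dn S (ip w0) (ip w0 p) := by
    unfold dn
    rw [Finset.filter_congr (fun y hy => hwsgn y hy p hp)]
  rw [← hupe, ← hdne] at hm1 hm2
  set n := S.card with hn
  have htot := up_dn_lev S (ip w) (ip w p)
  have hlev : lev S (ip w) (ip w p) = 1 := by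
    unfold lev
    rw [Finset.card_eq_one]
    refine ⟨p, ?_⟩
    ext y
    rw [mem_filter, mem_singleton]
    constructor
    · rintro ⟨hy, h3⟩; exact hwinj y hy p hp h3
    · rintro rfl; exact ⟨hp, rfl⟩
  have hzzu : ip u zz = 0 := by rw [ip_comm]; exact hzz
  have hwzz : ip w zz ≠ 0 := hw zz (mem_insert_self _ _)
  have hwt : ∀ t : ℝ, w + t • u ≠ 0 := by
    intro t h
    apply hwzz
    have h1 : ip (w + t • u) zz = 0 := by rw [h]; exact ip_zero_left _
    rw [ip_add, ip_smul, hzzu] at h1
    linarith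
  -- two distinct points
  obtain ⟨q0, hq0, hq0p⟩ : ∃ q ∈ S, q ≠ p := by
    obtain ⟨a, ha, b, hb, hab⟩ := Finset.one_lt_card.mp (by omega : 1 < S.card)
    by_cases h : a = p
    · exact ⟨b, hb, fun h1 => hab (by rw [h, h1])⟩
    · exact ⟨a, ha, h⟩
  have hY : (S.filter (fun z => ip u z - ip u p ≠ 0)).Nonempty := by
    by_contra hc
    rw [Finset.not_nonempty_iff_eq_empty, Finset.filter_eq_empty_iff] at hc
    have hc' : ∀ z ∈ S, ip u z = ip u p := by
      intro z hz
      have := hc hz
      push Not at this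
      linarith
    have h1 := hG u hune p hp q0 hq0 (Ne.symm hq0p) (hc' q0 hq0).symm
    have h2 : up S (ip u) (ip u p) = 0 := by
      unfold up
      rw [Finset.card_eq_zero, Finset.filter_eq_empty_iff]
      intro z hz h3
      linarith [hc' z hz]
    have h3 : dn S (ip u) (ip u p) = 0 := by
      unfold dn
      rw [Finset.card_eq_zero, Finset.filter_eq_empty_iff]
      intro z hz h3
      linarith [hc' z hz]
    omega
  obtain ⟨ys, hysY, hysmin⟩ := Finset.exists_min_image _
    (fun z => |ip w z - ip w p| / |ip u z - ip u p|) hY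
  obtain ⟨hysS, hysη⟩ := mem_filter.mp hysY
  set σ := -(ip w ys - ip w p) / (ip u ys - ip u p) with hσ
  have hσe : σ * (ip u ys - ip u p) = -(ip w ys - ip w p) := by rw [hσ]; field_simp
  have hσabs : |σ| = |ip w ys - ip w p| / |ip u ys - ip u p| := by
    rw [hσ, abs_div, abs_neg]
  have hysp : ys ≠ p := by rintro rfl; exact hysη (sub_self _)
  set d := ys - p with hd
  have hud : ip u d = ip u ys - ip u p := ip_sub_right _ _ _
  have hwd : ip w d = ip w ys - ip w p := ip_sub_right _ _ _
  have hwdne : ip w d ≠ 0 := by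
    rw [hwd]
    intro h
    exact hysp (hwinj ys hysS p hp (by linarith))
  set r := w + σ • u with hr
  have hrip : ∀ z, ip r z = ip w z + σ * ip u z := by
    intro z; rw [hr, ip_add, ip_smul]
  have hrys : ip r p = ip r ys := by rw [hrip, hrip]; linarith
  -- points on the plane `r` through `p` are on the line `p + ℝ d`
  have hline : ∀ z ∈ S, ip r z = ip r p → ∃ s : ℝ, z = p + s • d := by
    intro z hz h
    have h1 : (ip w z - ip w p) + σ * (ip u z - ip u p) = 0 := by
      rw [hrip, hrip] at h; linarith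
    set q := ip u (z - p) • (ys - p) - ip u (ys - p) • (z - p) with hq
    have hq0 : q = 0 := by
      by_contra hne
      apply hw q (mem_insert_of_mem (mem_filter.mpr ⟨mem_image.mpr ⟨(ys, z), by
        simp [hysS, hz], rfl⟩, hne⟩))
      rw [hq, ip_sub_right, ip_smul_right, ip_smul_right]
      simp only [ip_sub_right]
      linear_combination (ip u z - ip u p) * hσe - (ip u ys - ip u p) * h1
    refine ⟨ip u (z - p) / ip u d, ?_⟩
    have h2 : ip u (z - p) • (ys - p) = ip u (ys - p) • (z - p) := sub_eq_zero.mp hq0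
    have h3 : ip u d ≠ 0 := by rw [hud]; exact hysη
    have h4 : (ip u (z - p) / ip u d) • d = z - p := by
      rw [div_eq_inv_mul, ← smul_smul, hd, h2, smul_smul, ← hd, inv_mul_cancel₀ h3, one_smul]
    rw [h4]; abel
  have honline : ∀ z, (∃ s : ℝ, z = p + s • d) → ip r z = ip r p := by
    rintro z ⟨s, rfl⟩
    have h1 : ip r d = 0 := by rw [hd, ip_sub_right]; linarith
    rw [ip_add_right, ip_smul_right, h1]; ring
  -- the line is light
  have hlight : ¬ Heavy S (C + n % 2) p d := by
    intro h
    have := huh ys hysS h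
    rw [ip_sub_right] at this
    exact hysη this
  -- signs
  obtain ⟨A, hA⟩ : ∃ A, A = S.filter (fun z => ip r z = ip r p) := ⟨_, rfl⟩
  have hAS : A ⊆ S := by rw [hA]; exact Finset.filter_subset _ _
  have hAm : ∀ z, z ∈ A ↔ (z ∈ S ∧ ip r z = ip r p) := by
    intro z; rw [hA, mem_filter]
  have hsgn : ∀ z ∈ S, z ∉ A → (0 < ip w z - ip w p ↔ 0 < ip r z - ip r p) ∧
      (ip w z - ip w p < 0 ↔ ip r z - ip r p < 0) := by
    intro z hz hzA
    have h1 : ip r z - ip r p = (ip w z - ip w p) + σ * (ip u z - ip u p) := by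
      rw [hrip, hrip]; ring
    have h2 : ip r z - ip r p ≠ 0 := fun h => hzA ((hAm z).mpr ⟨hz, by linarith⟩)
    have h3 : |σ * (ip u z - ip u p)| ≤ |ip w z - ip w p| := by
      by_cases h4 : ip u z - ip u p = 0
      · rw [h4, mul_zero, abs_zero]; exact abs_nonneg _
      · have h5 : |ip w ys - ip w p| / |ip u ys - ip u p| ≤ |ip w z - ip w p| / |ip u z - ip u p| :=
          hysmin z (mem_filter.mpr ⟨hz, h4⟩)
        rw [← hσabs, le_div_iff₀ (abs_pos.mpr h4), ← abs_mul] at h5
        exact h5
    rw [h1] at h2 ⊢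
    rcases lt_trichotomy (ip w z - ip w p) 0 with h6 | h6 | h6
    · rw [abs_of_neg h6] at h3
      have h7 := (abs_le.mp h3).2
      constructor
      · constructor <;> intro h8 <;> linarith
      · constructor
        · intro _; exact lt_of_le_of_ne (by linarith) h2
        · intro _; exact h6
    · rw [h6, abs_zero] at h3
      have h7 := abs_eq_zero.mp (le_antisymm h3 (abs_nonneg _))
      exfalso
      apply h2
      rw [h6, h7]; ring
    · rw [abs_of_pos h6] at h3
      have h7 := (abs_le.mp h3).1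
      constructor
      · constructor
        · intro _; exact lt_of_le_of_ne (by linarith) (Ne.symm h2)
        · intro _; exact h6
      · constructor <;> intro h8 <;> linarith
  have hupw : up S (ip w) (ip w p) = up S (ip r) (ip r p) + (A.filter (fun z => ip w p < ip w z)).card := by
    unfold up
    apply split_card hAS
    · intro z hz hzA
      obtain ⟨h1, h2⟩ := hsgn z hz hzA
      rw [sub_pos, sub_pos] at h1
      exact h1
    · intro z hz h4
      have := ((hAm z).mp hz).2
      linarith
    · intro z _; exact Iff.rfl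
  have hdnw' : dn S (ip w) (ip w p) = dn S (ip r) (ip r p) + (A.filter (fun z => ip w z < ip w p)).card := by
    unfold dn
    apply split_card hAS
    · intro z hz hzA
      obtain ⟨h1, h2⟩ := hsgn z hz hzA
      rw [sub_neg, sub_neg] at h2
      exact h2
    · intro z hz h4
      have := ((hAm z).mp hz).2
      linarith
    · intro z _; exact Iff.rfl
  have hraymem : ∀ z, z ∈ ray S p d ↔ (z ∈ A ∧ 0 < (ip w z - ip w p) / ip w d) := by
    intro z
    rw [mem_ray, hAm]
    constructor
    · rintro ⟨hz, s, hs, hzs⟩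
      refine ⟨⟨hz, honline z ⟨s, hzs⟩⟩, ?_⟩
      rw [hzs, ip_add_right, ip_smul_right]
      have : (ip w p + s * ip w d - ip w p) / ip w d = s := by field_simp; ring
      rw [this]; exact hs
    · rintro ⟨⟨hz, h1⟩, h2⟩
      obtain ⟨s, hs⟩ := hline z hz h1
      refine ⟨hz, s, ?_, hs⟩
      rw [hs, ip_add_right, ip_smul_right] at h2
      have : (ip w p + s * ip w d - ip w p) / ip w d = s := by field_simp; ring
      rw [this] at h2; exact h2
  have hraymem' : ∀ z, z ∈ ray S p (-d) ↔ (z ∈ A ∧ (ip w z - ip w p) / ip w d < 0) := by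
    intro z
    rw [mem_ray, hAm]
    constructor
    · rintro ⟨hz, s, hs, hzs⟩
      have hzs' : z = p + (-s) • d := by rw [hzs, smul_neg, neg_smul]
      refine ⟨⟨hz, honline z ⟨-s, hzs'⟩⟩, ?_⟩
      rw [hzs', ip_add_right, ip_smul_right]
      have : (ip w p + -s * ip w d - ip w p) / ip w d = -s := by field_simp; ring
      rw [this]; linarith
    · rintro ⟨⟨hz, h1⟩, h2⟩
      obtain ⟨s, hs⟩ := hline z hz h1
      rw [hs, ip_add_right, ip_smul_right] at h2
      have h3 : (ip w p + s * ip w d - ip w p) / ip w d = s := by field_simp; ring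
      rw [h3] at h2
      refine ⟨hz, -s, by linarith, ?_⟩
      rw [hs, smul_neg, neg_smul, neg_neg]
  have hdiff : |((A.filter (fun z => ip w p < ip w z)).card : ℤ)
      - ((A.filter (fun z => ip w z < ip w p)).card : ℤ)| < ((C + n % 2 : ℕ) : ℤ) := by
    have hl : |((ray S p d).card : ℤ) - ((ray S p (-d)).card : ℤ)| < ((C + n % 2 : ℕ) : ℤ) := by
      unfold Heavy at hlight
      push Not at hlight
      exact hlight
    rcases lt_or_gt_of_ne hwdne with h1 | h1
    · have e1 : ray S p d = A.filter (fun z => ip w z < ip w p) := by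
        ext z
        rw [hraymem, mem_filter]
        constructor
        · rintro ⟨h2, h3⟩
          refine ⟨h2, ?_⟩
          by_contra h4
          push Not at h4
          have := div_nonpos_of_nonneg_of_nonpos (sub_nonneg.mpr h4) h1.le
          linarith
        · rintro ⟨h2, h3⟩
          exact ⟨h2, div_pos_of_neg_of_neg (by linarith) h1⟩
      have e2 : ray S p (-d) = A.filter (fun z => ip w p < ip w z) := by
        ext z
        rw [hraymem', mem_filter]
        constructor
        · rintro ⟨h2, h3⟩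
          refine ⟨h2, ?_⟩
          by_contra h4
          push Not at h4
          have := div_nonneg_of_nonpos (sub_nonpos.mpr h4) h1.le
          linarith
        · rintro ⟨h2, h3⟩
          exact ⟨h2, div_neg_of_pos_of_neg (by linarith) h1⟩
      rw [e1, e2, abs_sub_comm] at hl
      exact hl
    · have e1 : ray S p d = A.filter (fun z => ip w p < ip w z) := by
        ext z
        rw [hraymem, mem_filter]
        constructor
        · rintro ⟨h2, h3⟩
          refine ⟨h2, ?_⟩
          by_contra h4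
          push Not at h4
          have := div_nonpos_of_nonpos_of_nonneg (sub_nonpos.mpr h4) h1.le
          linarith
        · rintro ⟨h2, h3⟩
          exact ⟨h2, div_pos (by linarith) h1⟩
      have e2 : ray S p (-d) = A.filter (fun z => ip w z < ip w p) := by
        ext z
        rw [hraymem', mem_filter]
        constructor
        · rintro ⟨h2, h3⟩
          refine ⟨h2, ?_⟩
          by_contra h4
          push Not at h4
          have := div_nonneg (sub_nonneg.mpr h4) h1.le
          linarith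
        · rintro ⟨h2, h3⟩
          exact ⟨h2, div_neg_of_neg_of_pos (by linarith) h1⟩
      rw [e1, e2] at hl
      exact hl
  have hgap := hG r (hwt σ) p hp ys hysS (Ne.symm hysp) hrys
  obtain ⟨h1, h2⟩ := abs_lt.mp hdiff
  omega

open Classical in
/-- Let every plane through two distinct points of `S` have imbalance greater than `C`.  Let `w` be a
direction taking distinct values on `S`, and let `p` be a median point of `S` in that direction.
Then `p` lies on three lines, not in a common plane, each of which carries at least `C + 1` points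
of `S` (at least `C + 2` if the number of points is odd): in fact the numbers of points on its two
open rays from `p` differ by at least `C`, respectively by at least `C + 1`. -/
theorem result (S : Finset (Fin 3 → ℝ)) (hS : 2 ≤ S.card) (C : ℕ)
    (hgap : ∀ p ∈ S, ∀ q ∈ S, p ≠ q → ∀ v : Fin 3 → ℝ, v ≠ 0 → ∀ c : ℝ,
      (∑ i, v i * p i = c) → (∑ i, v i * q i = c) →
      (C : ℤ) < |((S.filter (fun x => ∑ i, v i * x i < c)).card : ℤ)
        - ((S.filter (fun x => c < ∑ i, v i * x i)).card : ℤ)|)
    (w : Fin 3 → ℝ) (hw : ∀ x ∈ S, ∀ y ∈ S, ∑ i, w i * x i = ∑ i, w i * y i → x = y)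
    (p : Fin 3 → ℝ) (hp : p ∈ S)
    (hmed : |((S.filter (fun x => ∑ i, w i * x i < ∑ i, w i * p i)).card : ℤ)
        - ((S.filter (fun x => ∑ i, w i * p i < ∑ i, w i * x i)).card : ℤ)| ≤ 1) :
    ∃ x₁ ∈ S, ∃ x₂ ∈ S, ∃ x₃ ∈ S, LinearIndependent ℝ ![x₁ - p, x₂ - p, x₃ - p] ∧
      ∀ y, (y = x₁ ∨ y = x₂ ∨ y = x₃) →
        ((C : ℤ) + (S.card % 2 : ℕ)) ≤
          |((S.filter (fun x => ∃ s : ℝ, 0 < s ∧ x = p + s • (y - p))).card : ℤ)
            - ((S.filter (fun x => ∃ s : ℝ, s < 0 ∧ x = p + s • (y - p))).card : ℤ)| := by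
  have hip : ∀ v x : Fin 3 → ℝ, ∑ i, v i * x i = ip v x := by
    intro v x
    simp only [Fin.sum_univ_three, ip]
  simp only [hip] at hgap hw hmed
  have hG : GapS S C := by
    intro v hv p hp q hq hpq h
    have h1 := hgap p hp q hq hpq v hv (ip v p) rfl h.symm
    unfold up dn
    rcases lt_abs.mp h1 with h2 | h2
    · left; omega
    · right; omega
  have hm := abs_le.mp hmed
  obtain ⟨x, hx, y, hy, z, hz, hli, h1, h2, h3⟩ := main S hS C hG w hw p hp
    (by unfold up dn; omega) (by unfold up dn; omega)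
  refine ⟨x, hx, y, hy, z, hz, hli, ?_⟩
  have key : ∀ q : Fin 3 → ℝ, Heavy S (C + S.card % 2) p (q - p) →
      ((C : ℤ) + (S.card % 2 : ℕ)) ≤
          |((S.filter (fun x => ∃ s : ℝ, 0 < s ∧ x = p + s • (q - p))).card : ℤ)
            - ((S.filter (fun x => ∃ s : ℝ, s < 0 ∧ x = p + s • (q - p))).card : ℤ)| := by
    intro q hq
    unfold Heavy at hq
    have e1 : ray S p (q - p) = S.filter (fun x => ∃ s : ℝ, 0 < s ∧ x = p + s • (q - p)) := by
      ext a
      rw [mem_ray, mem_filter]
    have e2 : ray S p (-(q - p)) = S.filter (fun x => ∃ s : ℝ, s < 0 ∧ x = p + s • (q - p)) := by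
      ext a
      rw [mem_ray, mem_filter]
      constructor
      · rintro ⟨ha, s, hs, h⟩
        exact ⟨ha, -s, by linarith, by rw [h, smul_neg, neg_smul]⟩
      · rintro ⟨ha, s, hs, h⟩
        exact ⟨ha, -s, by linarith, by rw [h, smul_neg, neg_smul, neg_neg]⟩
    rw [e1, e2] at hq
    push_cast at hq ⊢
    exact hq
  intro q hq
  rcases hq with rfl | rfl | rfl
  · exact key _ h1
  · exact key _ h2
  · exact key _ h3

end Pool.Agent.Results.MP_9673d9_co.ThreeRichLines
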